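import Pool.Agent.H33.PopovDefs

set_option autoImplicit false

namespace Pool.Agent.Results.MP_170294_an.Q1

open Pool.Agent.H33.Popov Polynomial

instance : Nonempty (Set.Icc (-1 : ℝ) 1) := ⟨⟨0, by norm_num, by norm_num⟩⟩

lemma bdd (u v : Set.Icc (-1 : ℝ) 1 → ℝ) : BddBelow (Set.range fun ξ => max |u ξ| |v ξ|) :=
  ⟨0, by rintro _ ⟨ξ, rfl⟩; exact le_max_of_le_left (abs_nonneg _)⟩

lemma hdiff_le (f g : ℝ → ℝ) (x : Set.Icc (-1 : ℝ) 1) : hdiff f g x ≤ |f x - g x| := by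
  refine max_le ((ciInf_le (bdd _ _) x).trans ?_) ((ciInf_le (bdd _ _) x).trans ?_) <;> simp

lemma hdiff_nonneg (f g : ℝ → ℝ) (x : ℝ) : 0 ≤ hdiff f g x :=
  le_max_of_le_left (le_ciInf fun _ => le_max_of_le_left (abs_nonneg _))

lemma hdist_nonneg (f g : ℝ → ℝ) : 0 ≤ hdist f g :=
  Real.iSup_nonneg fun x => hdiff_nonneg f g x

lemma le_hdist (f g : ℝ → ℝ) (hf : Continuous f) (hg : Continuous g) (x : Set.Icc (-1 : ℝ) 1) :
    hdiff f g x ≤ hdist f g := by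
  refine le_ciSup (f := fun x : Set.Icc (-1 : ℝ) 1 => hdiff f g x) ?_ x
  have hc : Continuous fun x : Set.Icc (-1 : ℝ) 1 => |f x - g x| := by fun_prop
  obtain ⟨M, hM⟩ := (isCompact_range hc).bddAbove
  exact ⟨M, by rintro _ ⟨y, rfl⟩; exact (hdiff_le f g y).trans (hM ⟨y, rfl⟩)⟩

lemma best_abs : best 2 (fun x => |x|) ≤ 1 / 8 := by
  have hp : (X ^ 2 + C (1 / 8) : ℝ[X]).natDegree ≤ 2 := by compute_degree
  refine (ciInf_le ⟨0, by rintro _ ⟨p, rfl⟩; exact hdist_nonneg _ _⟩ ⟨_, hp⟩).trans ?_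
  refine ciSup_le fun x => (hdiff_le _ _ x).trans ?_
  have h1 : |(x : ℝ)| ≤ 1 := abs_le.mpr x.2
  have h2 := abs_nonneg (x : ℝ)
  have h3 : (x : ℝ) ^ 2 = |(x : ℝ)| ^ 2 := (sq_abs _).symm
  simp only [eval_add, eval_pow, eval_X, eval_C, h3]
  rw [abs_le]
  constructor <;> nlinarith [sq_nonneg (|(x : ℝ)| - 1 / 2)]

lemma best_f : 1 / 7 ≤ best 2 (fun x => max 0 (4 * x - 3)) := by
  have : Nonempty {p : Polynomial ℝ // p.natDegree ≤ 2} := ⟨⟨0, by simp⟩⟩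
  refine le_ciInf fun p => ?_
  by_contra hc
  push Not at hc
  have hle := fun x => (le_hdist (fun x => max 0 (4 * x - 3)) (fun x => p.1.eval x) (by fun_prop)
    p.1.continuous x).trans_lt hc
  have small : ∀ x : ℝ, -1 ≤ x → x ≤ 1 / 2 → |p.1.eval x| < 1 / 7 := by
    intro x h1 h2
    obtain ⟨ξ, hξ⟩ := exists_lt_of_ciInf_lt
      ((le_max_right _ _).trans_lt (hle ⟨x, h1, by linarith⟩))
    have a1 := abs_lt.mp ((le_max_left _ _).trans_lt hξ)
    have a2 := (le_max_right _ _).trans_lt hξ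
    have a3 : max 0 (4 * (ξ : ℝ) - 3) = 0 := max_eq_left (by linarith [a1.1])
    simp only [a3, zero_sub, abs_neg] at a2
    exact a2
  obtain ⟨ξ, hξ⟩ := exists_lt_of_ciInf_lt
    ((le_max_left _ _).trans_lt (hle ⟨1, by norm_num, le_rfl⟩))
  have a1 := abs_lt.mp ((le_max_left _ _).trans_lt hξ)
  have a2 := abs_lt.mp ((le_max_right _ _).trans_lt hξ)
  have a3 : max (0 : ℝ) (4 * 1 - 3) = 1 := by norm_num
  simp only [a3] at a1 a2
  have b0 := abs_lt.mp (small (-1) le_rfl (by norm_num))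
  have b1 := abs_lt.mp (small (-1 / 4) (by norm_num) (by norm_num))
  have b2 := abs_lt.mp (small (1 / 2) (by norm_num) le_rfl)
  have ev : ∀ x : ℝ, p.1.eval x = p.1.coeff 0 + p.1.coeff 1 * x + p.1.coeff 2 * x ^ 2 := by
    intro x
    rw [eval_eq_sum_range' (Nat.lt_succ_of_le p.2)]
    simp [Finset.sum_range_succ]
  have hx1 : (ξ : ℝ) ≤ 1 := ξ.2.2
  have hx0 : 6 / 7 < (ξ : ℝ) := by linarith [a1.2]
  generalize (ξ : ℝ) = t at *
  have lag : p.1.eval t = (8 / 9 * ((t + 1 / 4) * (t - 1 / 2))) * p.1.eval (-1)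
      - (16 / 9 * ((t + 1) * (t - 1 / 2))) * p.1.eval (-1 / 4)
      + (8 / 9 * ((t + 1) * (t + 1 / 4))) * p.1.eval (1 / 2) := by
    simp only [ev]; ring
  have c0 : 0 ≤ 8 / 9 * ((t + 1 / 4) * (t - 1 / 2)) := by nlinarith
  have c1 : 0 ≤ 16 / 9 * ((t + 1) * (t - 1 / 2)) := by nlinarith
  have c2 : 0 ≤ 8 / 9 * ((t + 1) * (t + 1 / 4)) := by nlinarith
  have d0 := mul_le_mul_of_nonneg_left b0.2.le c0
  have d1 := mul_le_mul_of_nonneg_left b1.1.le c1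
  have d2 := mul_le_mul_of_nonneg_left b2.2.le c2
  nlinarith [a2.2]

/-- A continuous convex function on `[-1, 1]` with values in `[0, 1]` whose best Hausdorff
approximation exceeds that of the absolute value. -/
theorem result : ∃ n : ℕ, 1 ≤ n ∧ ∃ f : ℝ → ℝ, ContinuousOn f (Set.Icc (-1) 1) ∧
    ConvexOn ℝ (Set.Icc (-1) 1) f ∧ (∀ x ∈ Set.Icc (-1 : ℝ) 1, f x ∈ Set.Icc (0 : ℝ) 1) ∧
    best n (fun x => |x|) < best n f := by
  refine ⟨2, by norm_num, fun x => max 0 (4 * x - 3), by fun_prop, ?_, ?_, ?_⟩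
  · refine ConvexOn.sup (f := fun _ => (0 : ℝ)) (g := fun x => 4 * x - 3)
      (convexOn_const _ (convex_Icc _ _)) ⟨convex_Icc _ _, fun x _ y _ a b _ _ hab => ?_⟩
    simp only [smul_eq_mul]
    nlinarith
  · intro x hx
    exact ⟨le_max_left _ _, max_le zero_le_one (by linarith [hx.2])⟩
  · linarith [best_abs, best_f]

end Pool.Agent.Results.MP_170294_an.Q1
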